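import Mathlib

/-!
# The Lindemann-Weierstrass theorem

The analytic part is `LindemannWeierstrass.exp_polynomial_approx` from Mathlib.
-/

set_option autoImplicit false

namespace Pool.Agent.Lib.LW

open Polynomial Complex

/-- Common denominator: a nonzero integer `a` such that `a * x` is integral for all `x` in a finite
set of algebraic numbers. -/
theorem exists_common_denominator {K : Type*} [Field K] [CharZero K] [Algebra.IsAlgebraic ℚ K]
    (s : Finset K) : ∃ a : ℤ, a ≠ 0 ∧ ∀ x ∈ s, IsIntegral ℤ ((a : K) * x) := by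
  classical
  induction s using Finset.induction_on with
  | empty => exact ⟨1, one_ne_zero, by simp⟩
  | insert x s hx ih =>
    obtain ⟨a, ha, h⟩ := ih
    have hx' : IsAlgebraic ℤ x :=
      (IsFractionRing.isAlgebraic_iff ℤ ℚ K).mpr (Algebra.IsAlgebraic.isAlgebraic x)
    obtain ⟨y, hy, hyx⟩ := hx'.exists_integral_multiple
    refine ⟨a * y, mul_ne_zero ha hy, ?_⟩
    intro z hz
    rcases Finset.mem_insert.mp hz with rfl | hz
    · have : ((a * y : ℤ) : K) * z = (a : K) * (y • z) := by
        rw [zsmul_eq_mul]; push_cast; ring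
      rw [this]
      exact (isIntegral_algebraMap (R := ℤ) (x := a)).mul hyx
    · have : ((a * y : ℤ) : K) * z = (y : K) * ((a : K) * z) := by
        push_cast; ring
      rw [this]
      exact (isIntegral_algebraMap (R := ℤ) (x := y)).mul (h z hz)

/-- If `a x` is integral then `a ^ N * g x` is integral for `deg g ≤ N`. -/
theorem isIntegral_pow_mul_aeval {K : Type*} [Field K] [CharZero K] (a : ℤ) (x : K)
    (h : IsIntegral ℤ ((a : K) * x)) (g : ℤ[X]) (N : ℕ) (hN : g.natDegree ≤ N) :
    IsIntegral ℤ ((a : K) ^ N * aeval x g) := by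
  rw [aeval_eq_sum_range' (Nat.lt_succ_of_le hN), Finset.mul_sum]
  refine IsIntegral.sum _ ?_
  intro i hi
  have hi' : i ≤ N := Nat.lt_succ_iff.mp (Finset.mem_range.mp hi)
  have : (a : K) ^ N * g.coeff i • x ^ i
      = (a : K) ^ (N - i) * ((g.coeff i : ℤ) : K) * ((a : K) * x) ^ i := by
    rw [zsmul_eq_mul, mul_pow]
    have : (a : K) ^ N = (a : K) ^ (N - i) * (a : K) ^ i := by
      rw [← pow_add, Nat.sub_add_cancel hi']
    rw [this]; ring
  rw [this]
  exact (((isIntegral_algebraMap (R := ℤ) (x := a)).pow _).mul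
    (isIntegral_algebraMap (R := ℤ) (x := g.coeff i))).mul (h.pow i)

/-- Core of the Lindemann-Weierstrass theorem. -/
theorem core {K : Type*} [Field K] [CharZero K] [FiniteDimensional ℚ K] [IsGalois ℚ K]
    (φ : K →+* ℂ) (s : Finset K) (w : K → ℤ)
    (hs : ∀ σ : K ≃ₐ[ℚ] K, ∀ x ∈ s, σ x ∈ s)
    (hw : ∀ σ : K ≃ₐ[ℚ] K, ∀ x, w (σ x) = w x)
    (h0 : (0 : K) ∉ s) (k : ℤ) (hk : k ≠ 0) :
    (k : ℂ) + ∑ x ∈ s, (w x : ℂ) * Complex.exp (φ x) ≠ 0 := by
  classical
  intro hzero
  -- the polynomial with roots `s`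
  set FK : K[X] := ∏ x ∈ s, (X - C x) with hFK
  have himage : ∀ σ : K ≃ₐ[ℚ] K, s.image σ = s := by
    intro σ
    apply Finset.eq_of_subset_of_card_le
    · intro y hy
      obtain ⟨x, hx, rfl⟩ := Finset.mem_image.mp hy
      exact hs σ x hx
    · rw [Finset.card_image_of_injective _ σ.injective]
  have hsum : ∀ (σ : K ≃ₐ[ℚ] K) (F : K → K), ∑ x ∈ s, F (σ x) = ∑ x ∈ s, F x := by
    intro σ F
    conv_rhs => rw [← himage σ]
    rw [Finset.sum_image (fun x _ y _ h => σ.injective h)]
  have hFKσ : ∀ σ : K ≃ₐ[ℚ] K, FK.map (σ : K →+* K) = FK := by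
    intro σ
    rw [hFK, Polynomial.map_prod]
    simp only [Polynomial.map_sub, Polynomial.map_X, Polynomial.map_C]
    conv_rhs => rw [← himage σ]
    rw [Finset.prod_image (fun x _ y _ h => σ.injective h)]
    rfl
  have hlift : FK ∈ Polynomial.lifts (algebraMap ℚ K) := by
    rw [Polynomial.lifts_iff_coeff_lifts]
    intro n
    rw [IsGalois.mem_range_algebraMap_iff_fixed]
    intro σ
    have := congrArg (fun P => Polynomial.coeff P n) (hFKσ σ)
    simpa [Polynomial.coeff_map] using this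
  obtain ⟨F, hF⟩ := (Polynomial.mem_lifts _).mp hlift
  set f : ℤ[X] := IsLocalization.integerNormalization (nonZeroDivisors ℤ) F with hf
  obtain ⟨b, hb, hbf⟩ := IsLocalization.integerNormalization_spec (nonZeroDivisors ℤ) F
  have hb0 : b ≠ 0 := nonZeroDivisors.ne_zero hb
  have hfK : f.map (algebraMap ℤ K) = (b : K) • FK := by
    have : f.map (algebraMap ℤ K) = (f.map (algebraMap ℤ ℚ)).map (algebraMap ℚ K) := by
      rw [Polynomial.map_map]
      congr 1
      exact RingHom.ext_int _ _
    rw [this, hbf, ← hF]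
    ext n
    simp [Polynomial.coeff_map]
  have hFK0 : FK.eval 0 ≠ 0 := by
    rw [hFK, Polynomial.eval_prod, Finset.prod_ne_zero_iff]
    intro x hx
    simp only [Polynomial.eval_sub, Polynomial.eval_X, Polynomial.eval_C, zero_sub, ne_eq,
      neg_eq_zero]
    rintro rfl
    exact h0 hx
  have hf0 : f.eval 0 ≠ 0 := by
    intro h
    have h1 : (f.map (algebraMap ℤ K)).eval 0 = 0 := by
      rw [Polynomial.eval_map, Polynomial.eval₂_at_zero, ← Polynomial.coeff_zero_eq_eval_zero] at *
      rw [h]; simp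
    rw [hfK, Polynomial.eval_smul, smul_eq_mul, mul_eq_zero] at h1
    rcases h1 with h1 | h1
    · exact hb0 (by exact_mod_cast h1)
    · exact hFK0 h1
  have hfne : f ≠ 0 := by
    rintro h; rw [h] at hf0; simp at hf0
  have hroot : ∀ x ∈ s, aeval x f = 0 := by
    intro x hx
    have h1 : aeval x f = (f.map (algebraMap ℤ K)).eval x := by
      rw [Polynomial.eval_map_algebraMap]
    rw [h1, hfK, Polynomial.eval_smul, hFK, Polynomial.eval_prod, smul_eq_mul,
      Finset.prod_eq_zero hx (by simp), mul_zero]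
  have haev : ∀ (g : ℤ[X]) (x : K), aeval (φ x) g = φ (aeval x g) := by
    intro g x
    rw [Polynomial.aeval_def, Polynomial.aeval_def, Polynomial.hom_eval₂]
    congr 1
    exact RingHom.ext_int _ _
  have haroot : ∀ x ∈ s, φ x ∈ f.aroots ℂ := by
    intro x hx
    rw [Polynomial.mem_aroots]
    exact ⟨hfne, by rw [haev, hroot x hx, map_zero]⟩
  obtain ⟨a, ha, haint⟩ := exists_common_denominator s
  obtain ⟨c, hc⟩ := LindemannWeierstrass.exp_polynomial_approx f hf0
  set m := f.natDegree with hm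
  set W : ℝ := ∑ x ∈ s, |(w x : ℝ)| with hW
  -- choose a large prime
  have hlim : Filter.Tendsto (fun p : ℕ => (|(a : ℝ)| ^ m * |c|) ^ p / (p.factorial : ℝ))
      Filter.atTop (nhds 0) := FloorSemiring.tendsto_pow_div_factorial_atTop _
  set A : ℝ := |(a : ℝ)| ^ m * |c| with hA
  have hlim2 : Filter.Tendsto (fun p : ℕ => W * (A * (A ^ p / (p.factorial : ℝ))))
      Filter.atTop (nhds 0) := by
    have := (hlim.const_mul A).const_mul W
    simpa using this
  have hev : ∀ᶠ p : ℕ in Filter.atTop, W * (A * (A ^ p / (p.factorial : ℝ))) < 1 :=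
    hlim2.eventually (gt_mem_nhds one_pos)
  obtain ⟨N, hN⟩ := Filter.eventually_atTop.mp hev
  obtain ⟨p, hp, hpp⟩ := Nat.exists_infinite_primes
    (N + (f.eval 0).natAbs + a.natAbs + k.natAbs + 2)
  obtain ⟨n, hn, gp, hgdeg, hg⟩ := hc p (by omega) hpp
  -- the algebraic integer
  set T : K := ∑ x ∈ s, (w x : K) * aeval x gp with hT
  have hTσ : ∀ σ : K ≃ₐ[ℚ] K, σ T = T := by
    intro σ
    have : σ T = ∑ x ∈ s, (w (σ x) : K) * aeval (σ x) gp := by
      rw [hT, map_sum]
      refine Finset.sum_congr rfl fun x _ => ?_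
      rw [map_mul, map_intCast, hw]
      congr 1
      have := Polynomial.hom_eval₂ gp (algebraMap ℤ K) (σ : K →+* K) x
      rw [Polynomial.aeval_def, Polynomial.aeval_def]
      have h2 : ((σ : K →+* K).comp (algebraMap ℤ K)) = algebraMap ℤ K := RingHom.ext_int _ _
      rw [h2] at this
      exact this
    rw [this, hsum σ (fun y => (w y : K) * aeval y gp)]
  have hTint : IsIntegral ℤ ((a : K) ^ (p * m) * T) := by
    rw [hT, Finset.mul_sum]
    refine IsIntegral.sum _ ?_
    intro x hx
    have : (a : K) ^ (p * m) * ((w x : K) * aeval x gp)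
        = (w x : K) * ((a : K) ^ (p * m) * aeval x gp) := by ring
    rw [this]
    exact (isIntegral_algebraMap (R := ℤ) (x := w x)).mul
      (isIntegral_pow_mul_aeval a x (haint x hx) gp _ (hgdeg.trans (Nat.sub_le _ _)))
  obtain ⟨z, hz⟩ : ∃ z : ℤ, (z : K) = (a : K) ^ (p * m) * T := by
    have hfix : (a : K) ^ (p * m) * T ∈ Set.range (algebraMap ℚ K) := by
      rw [IsGalois.mem_range_algebraMap_iff_fixed]
      intro σ
      rw [map_mul, map_pow, map_intCast, hTσ]
    obtain ⟨q, hq⟩ := hfix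
    have hqint : IsIntegral ℤ q := by
      rw [← hq] at hTint
      exact (isIntegral_algebraMap_iff (algebraMap ℚ K).injective).mp hTint
    obtain ⟨z, hz⟩ := IsIntegrallyClosed.isIntegral_iff.mp hqint
    refine ⟨z, ?_⟩
    rw [← hq, ← hz]
    simp
  -- the estimate
  have hfact : ((a ^ (p * m) * n * k + p * z : ℤ) : ℂ)
      = - ((a : ℂ) ^ (p * m) * ∑ x ∈ s, (w x : ℂ) *
          (n • Complex.exp (φ x) - p • aeval (φ x) gp)) := by
    have hzC : (z : ℂ) = (a : ℂ) ^ (p * m) * ∑ x ∈ s, (w x : ℂ) * aeval (φ x) gp := by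
      have := congrArg φ hz
      rw [map_intCast, map_mul, map_pow, map_intCast, hT, map_sum] at this
      rw [this]
      congr 1
      refine Finset.sum_congr rfl fun x _ => ?_
      rw [map_mul, map_intCast, haev]
    push_cast
    rw [hzC]
    have h1 : (n : ℂ) * k = - ∑ x ∈ s, (w x : ℂ) * (n * Complex.exp (φ x)) := by
      have : (n : ℂ) * ((k : ℂ) + ∑ x ∈ s, (w x : ℂ) * Complex.exp (φ x)) = 0 := by
        rw [hzero, mul_zero]
      rw [mul_add, Finset.mul_sum] at this
      rw [eq_neg_iff_add_eq_zero, ← this]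
      congr 1
      refine Finset.sum_congr rfl fun x _ => ?_
      ring
    have h2 : ∑ x ∈ s, (w x : ℂ) * (n • Complex.exp (φ x) - p • aeval (φ x) gp)
        = ∑ x ∈ s, (w x : ℂ) * (n * Complex.exp (φ x))
          - p * ∑ x ∈ s, (w x : ℂ) * aeval (φ x) gp := by
      rw [Finset.mul_sum, ← Finset.sum_sub_distrib]
      refine Finset.sum_congr rfl fun x _ => ?_
      rw [zsmul_eq_mul, nsmul_eq_mul]; ring
    rw [h2]
    have h3 : (a : ℂ) ^ (p * m) * n * k = (a : ℂ) ^ (p * m) * (n * k) := by ring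
    rw [h3, h1]; ring
  have hbound : ‖((a ^ (p * m) * n * k + p * z : ℤ) : ℂ)‖ < 1 := by
    rw [hfact, norm_neg, norm_mul, norm_pow]
    have h1 : ‖∑ x ∈ s, (w x : ℂ) * (n • Complex.exp (φ x) - p • aeval (φ x) gp)‖
        ≤ W * (|c| ^ p / ((p - 1).factorial : ℝ)) := by
      refine (norm_sum_le _ _).trans ?_
      rw [hW, Finset.sum_mul]
      refine Finset.sum_le_sum fun x hx => ?_
      rw [norm_mul]
      have h2 := hg (haroot x hx)
      have h3 : c ^ p / ((p - 1).factorial : ℝ) ≤ |c| ^ p / ((p - 1).factorial : ℝ) := by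
        refine div_le_div_of_nonneg_right ?_ (Nat.cast_nonneg _)
        exact (le_abs_self _).trans (abs_pow c p).le
      have h4 : ‖(w x : ℂ)‖ = |(w x : ℝ)| := by
        rw [Complex.norm_intCast]
      rw [h4]
      gcongr
      exact h2.trans h3
    have h5 : ‖(a : ℂ)‖ ^ (p * m) = (|(a : ℝ)| ^ m) ^ p := by
      rw [Complex.norm_intCast, ← pow_mul, mul_comm]
    rw [h5]
    have hp1 : p = (p - 1) + 1 := (Nat.succ_pred_eq_of_pos hpp.pos).symm
    have hW0 : 0 ≤ W := Finset.sum_nonneg fun _ _ => abs_nonneg _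
    calc (|(a : ℝ)| ^ m) ^ p * ‖∑ x ∈ s, (w x : ℂ) * (n • Complex.exp (φ x) - p • aeval (φ x) gp)‖
        ≤ (|(a : ℝ)| ^ m) ^ p * (W * (|c| ^ p / ((p - 1).factorial : ℝ))) := by gcongr
      _ = W * (A * (A ^ (p - 1) / ((p - 1).factorial : ℝ))) := by
          have : A * A ^ (p - 1) = (|(a : ℝ)| ^ m) ^ p * |c| ^ p := by
            rw [← pow_succ', ← hp1, hA, mul_pow]
          calc (|(a : ℝ)| ^ m) ^ p * (W * (|c| ^ p / ((p - 1).factorial : ℝ)))
              = W * (((|(a : ℝ)| ^ m) ^ p * |c| ^ p) / ((p - 1).factorial : ℝ)) := by ring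
            _ = _ := by rw [← this]; ring
      _ < 1 := hN (p - 1) (by omega)
  have hint0 : a ^ (p * m) * n * k + p * z = 0 := by
    rw [Complex.norm_intCast] at hbound
    have : |a ^ (p * m) * n * k + p * z| < 1 := by exact_mod_cast hbound
    exact Int.abs_lt_one_iff.mp this
  have hdvd : (p : ℤ) ∣ a ^ (p * m) * n * k :=
    ⟨-z, by linear_combination hint0⟩
  have hpZ : Prime (p : ℤ) := Nat.prime_iff_prime_int.mp hpp
  rcases hpZ.dvd_or_dvd hdvd with h | h
  · rcases hpZ.dvd_or_dvd h with h | h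
    · have := hpZ.dvd_of_dvd_pow h
      have := Nat.le_of_dvd (Int.natAbs_pos.mpr ha) (Int.natCast_dvd.mp this)
      omega
    · exact hn h
  · have := Nat.le_of_dvd (Int.natAbs_pos.mpr hk) (Int.natCast_dvd.mp h)
    omega

/-- The evaluation `∑ c_a [a] ↦ ∑ φ(c_a) exp(φ a)` of the group algebra of `K` over `K`. -/
noncomputable def ev {K : Type*} [Field K] (φ : K →+* ℂ) : AddMonoidAlgebra K K →+* ℂ :=
  AddMonoidAlgebra.liftNCRingHom φ
    { toFun := fun a => Complex.exp (φ a.toAdd)
      map_one' := by simp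
      map_mul' := by intro a b; simp [Complex.exp_add] }
    (fun _ _ => Commute.all _ _)

theorem ev_single {K : Type*} [Field K] (φ : K →+* ℂ) (a c : K) :
    ev φ (AddMonoidAlgebra.single a c) = φ c * Complex.exp (φ a) := by
  simp [ev]

theorem ev_apply {K : Type*} [Field K] (φ : K →+* ℂ) (x : AddMonoidAlgebra K K) :
    ev φ x = ∑ a ∈ x.coeff.support, φ (x.coeff a) * Complex.exp (φ a) := by
  conv_lhs => rw [← AddMonoidAlgebra.sum_coeff_single x]
  rw [Finsupp.sum, map_sum]
  exact Finset.sum_congr rfl fun a _ => ev_single φ a _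

/-- **Lindemann-Weierstrass** over a Galois number field: the evaluation map is injective. -/
theorem ev_ne_zero {K : Type*} [Field K] [CharZero K] [FiniteDimensional ℚ K] [IsGalois ℚ K]
    (φ : K →+* ℂ) (x : AddMonoidAlgebra K K) (hx : x ≠ 0) : ev φ x ≠ 0 := by
  classical
  intro hx0
  -- action on coefficients
  let σc : (K ≃ₐ[ℚ] K) → AddMonoidAlgebra K K →+* AddMonoidAlgebra K K :=
    fun σ => AddMonoidAlgebra.mapRingHom K (σ : K →+* K)
  have hσc : ∀ σ z a, (σc σ z).coeff a = σ (z.coeff a) := fun σ z a => by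
    simp [σc]
  -- action on exponents
  let σe : (K ≃ₐ[ℚ] K) → AddMonoidAlgebra K K →+* AddMonoidAlgebra K K :=
    fun σ => AddMonoidAlgebra.mapDomainRingHom K (σ : K →+ K)
  have hσe : ∀ σ z a, (σe σ z).coeff (σ a) = z.coeff a := fun σ z a => by
    have : σe σ z = AddMonoidAlgebra.mapDomain (σ : K → K) z := rfl
    rw [this, AddMonoidAlgebra.coeff_mapDomain, Finsupp.mapDomain_apply σ.injective]
  have hσe' : ∀ σ z a, (σe σ z).coeff a = z.coeff (σ.symm a) := fun σ z a => by
    conv_lhs => rw [← σ.apply_symm_apply a]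
    exact hσe _ _ _
  have hcomp_c : ∀ τ σ z, σc τ (σc σ z) = σc (τ * σ) z := by
    intro τ σ z
    refine AddMonoidAlgebra.coeff_injective (Finsupp.ext fun a => ?_)
    simp only [hσc]; rfl
  have hcomp_e : ∀ τ σ z, σe τ (σe σ z) = σe (τ * σ) z := by
    intro τ σ z
    refine AddMonoidAlgebra.coeff_injective (Finsupp.ext fun a => ?_)
    simp only [hσe']; rfl
  have hcomm : ∀ τ σ z, σc τ (σe σ z) = σe σ (σc τ z) := by
    intro τ σ z
    refine AddMonoidAlgebra.coeff_injective (Finsupp.ext fun a => ?_)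
    simp only [hσe', hσc]
  have h1c : ∀ z, σc 1 z = z := by
    intro z
    refine AddMonoidAlgebra.coeff_injective (Finsupp.ext fun a => ?_)
    simp only [hσc]; rfl
  have h1e : ∀ z, σe 1 z = z := by
    intro z
    refine AddMonoidAlgebra.coeff_injective (Finsupp.ext fun a => ?_)
    simp only [hσe']; rfl
  have hcinj : ∀ σ z, z ≠ 0 → σc σ z ≠ 0 := by
    intro σ z hz h
    apply hz
    have := congrArg (σc σ⁻¹) h
    rw [hcomp_c, inv_mul_cancel, h1c, map_zero] at this
    exact this
  have heinj : ∀ σ z, z ≠ 0 → σe σ z ≠ 0 := by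
    intro σ z hz h
    apply hz
    have := congrArg (σe σ⁻¹) h
    rw [hcomp_e, inv_mul_cancel, h1e, map_zero] at this
    exact this
  -- product over the coefficient action
  set y := ∏ σ : K ≃ₐ[ℚ] K, σc σ x with hy
  have hy0 : y ≠ 0 := Finset.prod_ne_zero_iff.mpr fun σ _ => hcinj σ x hx
  have hyev : ev φ y = 0 := by
    rw [hy, map_prod]
    exact Finset.prod_eq_zero (Finset.mem_univ 1) (by rw [h1c]; exact hx0)
  have hyc : ∀ τ, σc τ y = y := by
    intro τ
    rw [hy, map_prod]
    simp only [hcomp_c]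
    exact Fintype.prod_equiv (Equiv.mulLeft τ) _ _ fun σ => rfl
  set z := ∏ σ : K ≃ₐ[ℚ] K, σe σ y with hz
  have hz0 : z ≠ 0 := Finset.prod_ne_zero_iff.mpr fun σ _ => heinj σ y hy0
  have hzev : ev φ z = 0 := by
    rw [hz, map_prod]
    exact Finset.prod_eq_zero (Finset.mem_univ 1) (by rw [h1e]; exact hyev)
  have hze : ∀ τ, σe τ z = z := by
    intro τ
    rw [hz, map_prod]
    simp only [hcomp_e]
    exact Fintype.prod_equiv (Equiv.mulLeft τ) _ _ fun σ => rfl
  have hzc : ∀ τ, σc τ z = z := by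
    intro τ
    rw [hz, map_prod]
    simp only [hcomm, hyc]
  -- the reflection
  let ν : AddMonoidAlgebra K K →+* AddMonoidAlgebra K K :=
    AddMonoidAlgebra.mapDomainRingHom K (-AddMonoidHom.id K)
  have hν : ∀ z a, (ν z).coeff a = z.coeff (-a) := fun z a => by
    have h1 : ν z = AddMonoidAlgebra.mapDomain (fun b : K => -b) z := rfl
    rw [h1, AddMonoidAlgebra.coeff_mapDomain]
    have : a = (fun b : K => -b) (-a) := by simp
    conv_lhs => rw [this]
    rw [Finsupp.mapDomain_apply neg_injective]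
  have hνc : ∀ τ z, σc τ (ν z) = ν (σc τ z) := by
    intro τ z
    refine AddMonoidAlgebra.coeff_injective (Finsupp.ext fun a => ?_)
    simp only [hν, hσc]
  have hνe : ∀ τ z, σe τ (ν z) = ν (σe τ z) := by
    intro τ z
    refine AddMonoidAlgebra.coeff_injective (Finsupp.ext fun a => ?_)
    simp only [hν, hσe', map_neg]
  set W := z * ν z with hW
  have hWev : ev φ W = 0 := by rw [hW, map_mul, hzev, zero_mul]
  have hWc : ∀ τ, σc τ W = W := by
    intro τ; rw [hW, map_mul, hνc, hzc]
  have hWe : ∀ τ, σe τ W = W := by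
    intro τ; rw [hW, map_mul, hνe, hze]
  have hW0 : W.coeff 0 = ∑ a ∈ z.coeff.support, z.coeff a ^ 2 := by
    rw [hW, AddMonoidAlgebra.coeff_mul_apply_left, Finsupp.sum]
    refine Finset.sum_congr rfl fun a _ => ?_
    rw [hν]; simp [sq]
  -- rationality of the coefficients
  have hrat : ∀ (V : AddMonoidAlgebra K K), (∀ τ, σc τ V = V) → ∀ a,
      ∃ q : ℚ, algebraMap ℚ K q = V.coeff a := by
    intro V hV a
    have : V.coeff a ∈ Set.range (algebraMap ℚ K) := by
      rw [IsGalois.mem_range_algebraMap_iff_fixed]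
      intro τ
      rw [← hσc, hV]
    exact this
  choose q hq using hrat z hzc
  have hW0ne : W.coeff 0 ≠ 0 := by
    rw [hW0]
    have h1 : ∑ a ∈ z.coeff.support, z.coeff a ^ 2
        = algebraMap ℚ K (∑ a ∈ z.coeff.support, q a ^ 2) := by
      rw [map_sum]
      exact Finset.sum_congr rfl fun a _ => by rw [map_pow, hq]
    rw [h1, map_ne_zero_iff _ (algebraMap ℚ K).injective]
    have hne : z.coeff.support.Nonempty := by
      rw [Finsupp.support_nonempty_iff]
      intro h
      exact hz0 (AddMonoidAlgebra.coeff_eq_zero.mp h)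
    have hpos : 0 < ∑ a ∈ z.coeff.support, q a ^ 2 := by
      refine Finset.sum_pos (fun a ha => ?_) hne
      have h2 : q a ≠ 0 := by
        intro h
        rw [Finsupp.mem_support_iff, ← hq, h, map_zero] at ha
        exact ha rfl
      positivity
    exact hpos.ne'
  -- integrality of the coefficients
  obtain ⟨b, hb, hbint⟩ := exists_common_denominator (W.coeff.support.image W.coeff)
  have hint : ∀ a : K, ∃ w : ℤ, (w : K) = (b : K) * W.coeff a := by
    intro a
    by_cases ha : W.coeff a = 0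
    · exact ⟨0, by rw [ha]; simp⟩
    · obtain ⟨r, hr⟩ := hrat W hWc a
      have h1 := hbint _ (Finset.mem_image_of_mem _ (Finsupp.mem_support_iff.mpr ha))
      have h2 : (b : K) * W.coeff a = algebraMap ℚ K (b * r) := by
        rw [map_mul, hr]; simp
      rw [h2, isIntegral_algebraMap_iff (algebraMap ℚ K).injective] at h1
      obtain ⟨w, hw⟩ := IsIntegrallyClosed.isIntegral_iff.mp h1
      refine ⟨w, ?_⟩
      rw [h2, ← hw]; simp
  choose w hw using hint
  have hbK : (b : K) ≠ 0 := by exact_mod_cast hb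
  refine core φ (W.coeff.support.erase 0) w ?_ ?_ (Finset.notMem_erase _ _) (w 0) ?_ ?_
  · intro τ a ha
    rw [Finset.mem_erase, Finsupp.mem_support_iff] at ha ⊢
    refine ⟨fun h => ha.1 ?_, ?_⟩
    · rwa [map_eq_zero_iff _ τ.injective] at h
    · rw [← hWe τ, hσe]; exact ha.2
  · intro τ a
    have h1 : W.coeff (τ a) = W.coeff a := by
      conv_lhs => rw [← hWe τ, hσe]
    have h2 := hw (τ a)
    rw [h1, ← hw a] at h2
    exact_mod_cast h2
  · intro h
    have h1 := hw 0
    rw [h, Int.cast_zero] at h1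
    exact (mul_ne_zero hbK hW0ne) h1.symm
  · have h1 : (b : ℂ) * ev φ W = 0 := by rw [hWev, mul_zero]
    rw [ev_apply, Finset.mul_sum] at h1
    rw [← h1, ← Finset.add_sum_erase _ _ (Finsupp.mem_support_iff.mpr hW0ne)]
    have h2 : ∀ a, (w a : ℂ) = (b : ℂ) * φ (W.coeff a) := by
      intro a
      have := congrArg φ (hw a)
      simpa using this
    congr 1
    · rw [h2]; simp
    · refine Finset.sum_congr rfl fun a _ => ?_
      rw [h2]; ring

/-- **Lindemann-Weierstrass theorem** (Baker's form): if `s` is a finite set of algebraic numbers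
and `c` takes algebraic values on `s`, not all zero, then `∑ c a * exp a ≠ 0`. -/
theorem lindemann_weierstrass (s : Finset ℂ) (c : ℂ → ℂ)
    (hs : ∀ a ∈ s, IsAlgebraic ℚ a) (hc : ∀ a ∈ s, IsAlgebraic ℚ (c a))
    (hne : ∃ a ∈ s, c a ≠ 0) : ∑ a ∈ s, c a * Complex.exp a ≠ 0 := by
  classical
  -- a Galois number field containing everything
  let S : Set ℂ := (s : Set ℂ) ∪ c '' s
  have hSfin : S.Finite := s.finite_toSet.union (s.finite_toSet.image c)
  have hSint : ∀ x ∈ S, IsIntegral ℚ x := by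
    rintro x (hx | ⟨a, ha, rfl⟩)
    · exact (hs x hx).isIntegral
    · exact (hc a ha).isIntegral
  let E : IntermediateField ℚ ℂ := IntermediateField.adjoin ℚ S
  have : Finite S := hSfin
  have hfin : FiniteDimensional ℚ E :=
    IntermediateField.finiteDimensional_adjoin fun x hx => hSint x hx
  let K : IntermediateField ℚ ℂ := IntermediateField.normalClosure ℚ E ℂ
  have hKfin : FiniteDimensional ℚ K := normalClosure.is_finiteDimensional ℚ E ℂ
  have hncl : IsNormalClosure ℚ E K :=
    Algebra.IsAlgebraic.isNormalClosure_normalClosure fun x => IsAlgClosed.splits _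
  have hKnormal : Normal ℚ K := hncl.normal
  have hKgal : IsGalois ℚ K := ⟨⟩
  have hEK : E ≤ K := by
    have h1 := AlgHom.fieldRange_le_normalClosure E.val
    rwa [IntermediateField.fieldRange_val] at h1
  have hSK : ∀ x ∈ S, x ∈ K := fun x hx => hEK (IntermediateField.subset_adjoin ℚ S hx)
  have hsK : ∀ a ∈ s, a ∈ K := fun a ha => hSK a (Or.inl ha)
  have hcK : ∀ a ∈ s, c a ∈ K := fun a ha => hSK _ (Or.inr ⟨a, ha, rfl⟩)
  -- the element of the group algebra
  let t : Finset K := s.attach.image fun a => ⟨a.1, hsK a.1 a.2⟩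
  let x : AddMonoidAlgebra K K :=
    ∑ a ∈ s.attach, AddMonoidAlgebra.single (⟨a.1, hsK a.1 a.2⟩ : K) (⟨c a.1, hcK a.1 a.2⟩ : K)
  have hx : x ≠ 0 := by
    obtain ⟨a, ha, hca⟩ := hne
    intro h
    have h1 : x.coeff ⟨a, hsK a ha⟩ = ⟨c a, hcK a ha⟩ := by
      simp only [x, AddMonoidAlgebra.coeff_sum, Finsupp.finsetSum_apply,
        AddMonoidAlgebra.coeff_single]
      rw [Finset.sum_eq_single ⟨a, ha⟩]
      · simp
      · intro b _ hb
        rw [Finsupp.single_eq_of_ne]
        intro h2
        apply hb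
        have := congrArg (fun y : K => (y : ℂ)) h2
        exact Subtype.ext this.symm
      · intro h2; exact absurd (Finset.mem_attach _ _) h2
    rw [h] at h1
    have := congrArg (fun y : K => (y : ℂ)) h1
    exact hca (by simpa using this.symm)
  have h := ev_ne_zero (algebraMap K ℂ) x hx
  have h2 : ev (algebraMap K ℂ) x = ∑ a ∈ s, c a * Complex.exp a := by
    rw [map_sum]
    simp only [ev_single]
    conv_rhs => rw [← Finset.sum_attach]
    rfl
  rwa [h2] at h

/-- **Hermite-Lindemann theorem**: `exp a` is transcendental for algebraic `a ≠ 0`. -/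
theorem transcendental_exp {a : ℂ} (ha : IsAlgebraic ℚ a) (ha0 : a ≠ 0) :
    Transcendental ℚ (Complex.exp a) := by
  intro h
  have key := lindemann_weierstrass {a, 0} (fun z => if z = a then 1 else -Complex.exp a)
    (by
      intro z hz
      rcases Finset.mem_insert.mp hz with rfl | hz
      · exact ha
      · rw [Finset.mem_singleton.mp hz]; exact isAlgebraic_zero)
    (by
      intro z _
      split_ifs
      · exact isAlgebraic_one
      · exact h.neg)
    ⟨a, Finset.mem_insert_self _ _, by simp⟩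
  apply key
  rw [Finset.sum_pair ha0]
  simp [ha0.symm]

/-- `π` is transcendental. -/
theorem transcendental_pi : Transcendental ℚ (Real.pi : ℝ) := by
  intro h
  have h1 : IsAlgebraic ℚ ((Real.pi : ℝ) : ℂ) := h.algebraMap
  have hI : IsAlgebraic ℚ Complex.I :=
    ⟨Polynomial.X ^ 2 + 1, (Polynomial.Monic.ne_zero (by monicity!)), by simp⟩
  have h2 := transcendental_exp (h1.mul hI) (by
    simp [Real.pi_ne_zero])
  rw [Complex.exp_pi_mul_I] at h2
  exact h2 (isAlgebraic_one.neg)

/-- `e` is transcendental. -/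
theorem transcendental_exp_one : Transcendental ℚ (Real.exp 1 : ℝ) := by
  intro h
  have h1 : IsAlgebraic ℚ ((Real.exp 1 : ℝ) : ℂ) := h.algebraMap
  have h2 := transcendental_exp (isAlgebraic_one (R := ℚ) (A := ℂ)) one_ne_zero
  apply h2
  simpa using h1

end Pool.Agent.Lib.LW
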